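import Pool.Agent.Run7.h146.Met.I2

/-! # Pieces ONE and TWO of the project Met (helper146): one- and two-point estimates -/

set_option autoImplicit false

open MeasureTheory Filter Topology ENNReal

namespace Run7.h590.Met

open Run7.h146.Met

variable {d : ℕ}

theorem mem_res {B : Set (V d)} {F : Finset (X d)} {z : X d} : z ∈ res B F ↔ z ∈ F ∧ z.1 ∈ B := by
  simp [res]

theorem mem_ins {z y : X d} {F : Finset (X d)} : z ∈ ins y F ↔ z = y ∨ z ∈ F := by
  simp [ins]

theorem res_res (B : Set (V d)) (F : Finset (X d)) : res B (res B F) = res B F := by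
  ext z; simp only [mem_res]; tauto

theorem res_ins {B : Set (V d)} {y : X d} (hy : y.1 ∉ B) (F : Finset (X d)) :
    res B (ins y F) = res B F := by
  ext z; simp only [mem_res, mem_ins]
  constructor
  · rintro ⟨h | h, h2⟩
    · subst h; exact absurd h2 hy
    · exact ⟨h, h2⟩
  · rintro ⟨h, h2⟩
    exact ⟨Or.inr h, h2⟩

theorem ins_comm (z y : X d) (F : Finset (X d)) : ins z (ins y F) = ins y (ins z F) := by
  ext w; simp only [mem_ins]; tauto

theorem loc_res {ε κ r : ℝ} {z : X d} {F : Finset (X d)} :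
    Loc ε κ r z (res (Metric.ball z.1 r) F) ↔ Loc ε κ r z F := by
  unfold Loc
  rw [res_res]

/-- independence for events -/
theorem ind3 (hI : S_IND) (hM : ∀ B : Set (V d), MeasurableSet B → Measurable (res B))
    (hd : 0 < d) {B B₁ B₂ B₃ : Set (V d)}
    (hB : MeasurableSet B) (hBf : volume B ≠ ⊤) (h1 : MeasurableSet B₁) (h2 : MeasurableSet B₂)
    (h3 : MeasurableSet B₃) (s1 : B₁ ⊆ B) (s2 : B₂ ⊆ B) (s3 : B₃ ⊆ B) (d12 : Disjoint B₁ B₂)
    (d13 : Disjoint B₁ B₃) (d23 : Disjoint B₂ B₃) {A₁ A₂ A₃ : Set (Finset (X d))}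
    (m1 : MeasurableSet A₁) (m2 : MeasurableSet A₂) (m3 : MeasurableSet A₃) :
    poi (mB B) {F | res B₁ F ∈ A₁ ∧ res B₂ F ∈ A₂ ∧ res B₃ F ∈ A₃} =
      poi (mB B₁) A₁ * poi (mB B₂) A₂ * poi (mB B₃) A₃ := by
  obtain ⟨-, -, h⟩ := hI d B B₁ B₂ B₃ hd hB hBf h1 h2 h3 s1 s2 s3 d12 d13 d23 (A₁.indicator 1)
    (A₂.indicator 1) (A₃.indicator 1) (measurable_one.indicator m1) (measurable_one.indicator m2)
    (measurable_one.indicator m3)
  rw [lintegral_indicator_one m1, lintegral_indicator_one m2, lintegral_indicator_one m3] at h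
  rw [← h]
  have hm : MeasurableSet {F | res B₁ F ∈ A₁ ∧ res B₂ F ∈ A₂ ∧ res B₃ F ∈ A₃} :=
    (hM B₁ h1 m1).inter ((hM B₂ h2 m2).inter (hM B₃ h3 m3))
  rw [← lintegral_indicator_one hm]
  refine lintegral_congr fun F => ?_
  by_cases a1 : res B₁ F ∈ A₁ <;> by_cases a2 : res B₂ F ∈ A₂ <;> by_cases a3 : res B₃ F ∈ A₃ <;>
    simp [Set.indicator, a1, a2, a3]

/-- almost sure properties -/
theorem ae_good (hMB : S_MB) (hMK : S_MK) (hd : 0 < d) {B : Set (V d)} (hB : MeasurableSet B)
    (hBf : volume B ≠ ⊤) (z : X d) :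
    ∀ᵐ F ∂(poi (mB B)), (∀ y ∈ F, ‖y.2‖ = 1) ∧ z ∉ F := by
  obtain ⟨-, -, -, h⟩ := hMB d hd
  obtain ⟨hf, hn, -, hu⟩ := h B hB hBf
  have hz : poi (mB B) {F | z ∈ F} = 0 := (hMK d (mB B)).2 z
  have h1 : ∀ᵐ F ∂(poi (mB B)), ∀ y ∈ F, ‖y.2‖ = 1 := by
    rw [ae_iff]
    refine measure_mono_null ?_ hu
    intro F hF
    simp only [Set.mem_ofPred_eq, not_forall] at hF
    obtain ⟨y, hy, hy2⟩ := hF
    exact ⟨y, hy, hy2⟩
  have h2 : ∀ᵐ F ∂(poi (mB B)), z ∉ F := by
    rw [ae_iff]
    simpa using hz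
  filter_upwards [h1, h2] with F a b
  exact ⟨a, b⟩

theorem t_ONE : S_PO1 → S_MK → S_MB → S_IND → S_MEAS → S_ONE := by
  intro hPO hMK hMB hI hME d ε κ C r₀ hd hε hLoc hLim r t R z B A hr ht htr hz hB hBf hA hzB h0B hdis
  obtain ⟨hres, -, -, -, -, halive, -, -, hLm, -⟩ := hME d ε hd hε
  obtain ⟨-, -, -, hr₀, hL1, -⟩ := hLoc
  obtain ⟨hup, hlo⟩ := hLim r t z hr ht htr hz
  set Bz : Set (V d) := Metric.ball z.1 r with hBz
  set U : Set (Finset (X d)) := {F | alive ε z t F ∨ ¬ Loc ε κ r z F} with hU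
  set L : Set (Finset (X d)) := {F | alive ε z t F ∧ Loc ε κ r z F} with hL
  have hUm : MeasurableSet U := (halive z t).union (hLm z κ r).compl
  have hLLm : MeasurableSet L := (halive z t).inter (hLm z κ r)
  have hme : MeasurableSet (∅ : Set (V d)) := MeasurableSet.empty
  have hpr : poi (mB (∅ : Set (V d))) Set.univ = 1 := by
    obtain ⟨-, -, -, h⟩ := hMB d hd
    have := (h ∅ hme (by simp)).1
    have := (hPO d (mB (∅ : Set (V d)))).1
    exact measure_univ
  have hind : ∀ W : Set (Finset (X d)), MeasurableSet W →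
      poi (mB B) {F | res (Metric.ball 0 R) F ∈ A ∧ res Bz F ∈ W} = PQ d R A * poi (mB Bz) W := by
    intro W hW
    have h := ind3 hI hres hd hB hBf (B₁ := Metric.ball (0 : V d) R) (B₂ := Bz) (B₃ := ∅)
      measurableSet_ball measurableSet_ball hme h0B hzB (Set.empty_subset _) hdis.symm
      (Set.disjoint_empty _) (Set.disjoint_empty _) hA hW MeasurableSet.univ
    rw [hpr, mul_one] at h
    simpa [PQ] using h
  have hae := ae_good hMB hMK hd hB hBf z
  constructor
  · calc poi (mB B) {F | res (Metric.ball 0 R) F ∈ A ∧ alive ε z t F}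
        ≤ poi (mB B) {F | res (Metric.ball 0 R) F ∈ A ∧ res Bz F ∈ U} := by
          refine measure_mono_ae ?_
          filter_upwards [hae] with F hF
          rintro ⟨h1, h2⟩
          refine ⟨h1, ?_⟩
          show alive ε z t (res Bz F) ∨ ¬ Loc ε κ r z (res Bz F)
          rw [loc_res]
          by_cases hl : Loc ε κ r z F
          · left
            exact (hL1 F z r t hF.1 hz hF.2 hr ht htr hl).1 h2
          · exact Or.inr hl
      _ = PQ d R A * poi (mB Bz) U := hind U hUm
      _ ≤ _ := by gcongr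
  · calc PQ d R A * ENNReal.ofReal (pp d ε t - C * Real.exp (-r))
        ≤ PQ d R A * poi (mB Bz) L := by gcongr
      _ = poi (mB B) {F | res (Metric.ball 0 R) F ∈ A ∧ res Bz F ∈ L} := (hind L hLLm).symm
      _ ≤ _ := by
          refine measure_mono_ae ?_
          filter_upwards [hae] with F hF
          rintro ⟨h1, h2, h3⟩
          rw [loc_res] at h3
          exact ⟨h1, (hL1 F z r t hF.1 hz hF.2 hr ht htr h3).2 h2⟩

theorem t_TWO : S_PO1 → S_MK → S_MB → S_IND → S_MEAS → S_TWO := by
  intro _ hMK hMB hI hME d ε κ C r₀ hd hε hLoc hLim r t r' t' R z y B A hr ht htr hr' ht' htr' hz hy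
    hB hBf hA hzB hyB h0B hz0 hy0 hzy
  obtain ⟨hres, -, -, -, -, halive, -, -, hLm, -⟩ := hME d ε hd hε
  obtain ⟨-, -, -, hr₀, hL1, -⟩ := hLoc
  obtain ⟨hup, -⟩ := hLim r t z hr ht htr hz
  obtain ⟨hup', -⟩ := hLim r' t' y hr' ht' htr' hy
  have hUm : ∀ (w : X d) (s ρ : ℝ), MeasurableSet {F | alive ε w s F ∨ ¬ Loc ε κ ρ w F} :=
    fun w s ρ => (halive w s).union (hLm w κ ρ).compl
  have hzz : z.1 ∈ Metric.ball z.1 r := Metric.mem_ball_self (by linarith)
  have hyy : y.1 ∈ Metric.ball y.1 r' := Metric.mem_ball_self (by linarith)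
  have hyz : y.1 ∉ Metric.ball z.1 r := fun h => Set.disjoint_left.1 hzy h hyy
  have hzy' : z.1 ∉ Metric.ball y.1 r' := fun h => Set.disjoint_left.1 hzy hzz h
  have hne : z ≠ y := by
    rintro rfl
    exact hyz hzz
  calc poi (mB B) {F | res (Metric.ball 0 R) F ∈ A ∧ al2 ε z t y t' F}
      ≤ poi (mB B) {F | res (Metric.ball 0 R) F ∈ A ∧
          res (Metric.ball z.1 r) F ∈ {F | alive ε z t F ∨ ¬ Loc ε κ r z F} ∧
          res (Metric.ball y.1 r') F ∈ {F | alive ε y t' F ∨ ¬ Loc ε κ r' y F}} := by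
        refine measure_mono_ae ?_
        filter_upwards [ae_good hMB hMK hd hB hBf z, ae_good hMB hMK hd hB hBf y] with F hF hF'
        rintro ⟨h1, h2, h3⟩
        refine ⟨h1, ?_, ?_⟩
        · show alive ε z t (res _ F) ∨ ¬ Loc ε κ r z (res _ F)
          rw [loc_res]
          by_cases hl : Loc ε κ r z F
          · left
            have hl' : Loc ε κ r z (ins y F) := by
              unfold Loc at hl ⊢
              rwa [res_ins hyz]
            have h := (hL1 (ins y F) z r t (by
              intro w hw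
              rcases mem_ins.1 hw with rfl | hw
              · exact hy
              · exact hF.1 w hw) hz (by
              intro hw
              rcases mem_ins.1 hw with hw | hw
              · exact hne hw
              · exact hF.2 hw) hr ht htr hl').1 h2
            rwa [res_ins hyz] at h
          · exact Or.inr hl
        · show alive ε y t' (res _ F) ∨ ¬ Loc ε κ r' y (res _ F)
          rw [loc_res]
          by_cases hl : Loc ε κ r' y F
          · left
            have hl' : Loc ε κ r' y (ins z F) := by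
              unfold Loc at hl ⊢
              rwa [res_ins hzy']
            rw [ins_comm] at h3
            have h := (hL1 (ins z F) y r' t' (by
              intro w hw
              rcases mem_ins.1 hw with rfl | hw
              · exact hz
              · exact hF.1 w hw) hy (by
              intro hw
              rcases mem_ins.1 hw with hw | hw
              · exact hne hw.symm
              · exact hF'.2 hw) hr' ht' htr' hl').1 h3
            rwa [res_ins hzy'] at h
          · exact Or.inr hl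
    _ = PQ d R A * poi (mB (Metric.ball z.1 r)) {F | alive ε z t F ∨ ¬ Loc ε κ r z F} *
        poi (mB (Metric.ball y.1 r')) {F | alive ε y t' F ∨ ¬ Loc ε κ r' y F} :=
        ind3 hI hres hd hB hBf measurableSet_ball measurableSet_ball measurableSet_ball h0B hzB hyB
          hz0.symm hy0.symm hzy hA (hUm z t r) (hUm y t' r')
    _ ≤ _ := by gcongr

end Run7.h590.Met
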